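import Pool.Graph.R_pool_sql_team_22a80281.Lib.helper10_.Con3

/-! Stars, a clique with an isolated vertex, the structure of the graphs without them, and the
exchange argument for arbitrary finite families. -/

namespace Pool.Agent.KS6_65.CF

open Pool.Agent.Cx Pool.Agent.Cx.Con SimpleGraph Relation Finset

/-- the star `K_{1,s}` with centre `0` -/
def starK (s : ℕ) : Σ n : ℕ, SimpleGraph (Fin n) := ⟨s + 1, fromRel fun a _ => a = 0⟩

/-- the disjoint union of a complete graph with `t` vertices and an isolated vertex `0` -/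
def cliqueK1 (t : ℕ) : Σ n : ℕ, SimpleGraph (Fin n) := ⟨t + 1, fromRel fun a b => a ≠ 0 ∧ b ≠ 0⟩

variable {V : Type} {G : SimpleGraph V} {L : List (V × V)}

lemma has_star {s : ℕ} : Has (starK s) G L ↔ ∃ (c : V) (f : Fin s → V), (∀ i, A G L c (f i)) ∧
    ∀ i j, i ≠ j → N G L (f i) (f j) := by
  constructor
  · rintro ⟨z, h⟩
    refine ⟨z (0 : Fin (s + 1)), fun i => z (i.succ : Fin (s + 1)), fun i => ?_, fun i j e => ?_⟩
    · have h1 := h (0 : Fin (s + 1)) (i.succ : Fin (s + 1)) (Fin.succ_ne_zero i).symm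
      exact ⟨h1.1, h1.2.1 (by
        show (fromRel fun (a _ : Fin (s + 1)) => a = 0).Adj 0 i.succ
        rw [fromRel_adj]
        exact ⟨(Fin.succ_ne_zero i).symm, Or.inl rfl⟩)⟩
    · have h1 := h (i.succ : Fin (s + 1)) (j.succ : Fin (s + 1)) (fun x => e (Fin.succ_injective _ x))
      refine ⟨h1.1, fun x => ?_⟩
      have h2 : (fromRel fun (a _ : Fin (s + 1)) => a = 0).Adj i.succ j.succ := h1.2.2 x
      rw [fromRel_adj] at h2
      rcases h2.2 with h3 | h3
      · exact Fin.succ_ne_zero _ h3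
      · exact Fin.succ_ne_zero _ h3
  · rintro ⟨c, f, h1, h2⟩
    refine ⟨(Fin.cons c f : Fin (s + 1) → V), fun i j => ?_⟩
    change Fin (s + 1) at i j
    have hadj : ∀ i j : Fin (s + 1), (starK s).2.Adj i j ↔ i ≠ j ∧ (i = 0 ∨ j = 0) := fun i j =>
      Iff.rfl
    refine Fin.cases ?_ (fun i => ?_) i <;> refine Fin.cases ?_ (fun j => ?_) j
    · intro e; exact absurd rfl e
    · intro e
      rw [Fin.cons_zero, Fin.cons_succ, hadj]
      exact ⟨(h1 j).1, iff_of_true ⟨e, Or.inl rfl⟩ (h1 j).2⟩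
    · intro e
      rw [Fin.cons_zero, Fin.cons_succ, hadj]
      exact ⟨(h1 i).symm.1, iff_of_true ⟨e, Or.inr rfl⟩ (h1 i).symm.2⟩
    · intro e
      rw [Fin.cons_succ, Fin.cons_succ, hadj]
      have h3 := h2 i j (fun x => e (by rw [x]))
      exact ⟨h3.1, iff_of_false (fun x => x.2.elim (Fin.succ_ne_zero _) (Fin.succ_ne_zero _)) h3.2⟩

lemma has_ck {t : ℕ} : Has (cliqueK1 t) G L ↔ ∃ (v : V) (f : Fin t → V), (∀ i, N G L v (f i)) ∧
    ∀ i j, i ≠ j → A G L (f i) (f j) := by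
  constructor
  · rintro ⟨z, h⟩
    refine ⟨z (0 : Fin (t + 1)), fun i => z (i.succ : Fin (t + 1)), fun i => ?_, fun i j e => ?_⟩
    · have h1 := h (0 : Fin (t + 1)) (i.succ : Fin (t + 1)) (Fin.succ_ne_zero i).symm
      refine ⟨h1.1, fun x => ?_⟩
      have h2 : (fromRel fun (a b : Fin (t + 1)) => a ≠ 0 ∧ b ≠ 0).Adj 0 i.succ := h1.2.2 x
      rw [fromRel_adj] at h2
      rcases h2.2 with h3 | h3
      · exact h3.1 rfl
      · exact h3.2 rfl
    · have h1 := h (i.succ : Fin (t + 1)) (j.succ : Fin (t + 1)) (fun x => e (Fin.succ_injective _ x))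
      exact ⟨h1.1, h1.2.1 (by
        show (fromRel fun (a b : Fin (t + 1)) => a ≠ 0 ∧ b ≠ 0).Adj i.succ j.succ
        rw [fromRel_adj]
        exact ⟨fun x => e (Fin.succ_injective _ x), Or.inl ⟨Fin.succ_ne_zero _, Fin.succ_ne_zero _⟩⟩)⟩
  · rintro ⟨c, f, h1, h2⟩
    refine ⟨(Fin.cons c f : Fin (t + 1) → V), fun i j => ?_⟩
    change Fin (t + 1) at i j
    have hadj : ∀ i j : Fin (t + 1), (cliqueK1 t).2.Adj i j ↔
        i ≠ j ∧ ((i ≠ 0 ∧ j ≠ 0) ∨ (j ≠ 0 ∧ i ≠ 0)) := fun i j => Iff.rfl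
    refine Fin.cases ?_ (fun i => ?_) i <;> refine Fin.cases ?_ (fun j => ?_) j
    · intro e; exact absurd rfl e
    · intro e
      rw [Fin.cons_zero, Fin.cons_succ, hadj]
      exact ⟨(h1 j).1, iff_of_false (by simp) (h1 j).2⟩
    · intro e
      rw [Fin.cons_zero, Fin.cons_succ, hadj]
      exact ⟨(h1 i).symm.1, iff_of_false (by simp) (h1 i).symm.2⟩
    · intro e
      rw [Fin.cons_succ, Fin.cons_succ, hadj]
      have h3 := h2 i j (fun x => e (by rw [x]))
      exact ⟨h3.1, iff_of_true ⟨e, Or.inl ⟨Fin.succ_ne_zero _, Fin.succ_ne_zero _⟩⟩ h3.2⟩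

/-- patterns from finite sets -/
lemma star_of {s : ℕ} (c : V) (S : Finset V) (hs : s ≤ S.card) (h1 : ∀ x ∈ S, A G L c x)
    (h2 : ∀ x ∈ S, ∀ y ∈ S, x ≠ y → N G L x y) : Has (starK s) G L := by
  refine has_star.2 ⟨c, fun i => (S.equivFin.symm (Fin.castLE hs i)).1, fun i => h1 _ (Subtype.prop _),
    fun i j e => h2 _ (Subtype.prop _) _ (Subtype.prop _) fun x => e ?_⟩
  have := S.equivFin.symm.injective (Subtype.ext x)
  exact Fin.castLE_injective hs this

lemma ck_of {t : ℕ} (c : V) (S : Finset V) (hs : t ≤ S.card) (h1 : ∀ x ∈ S, N G L c x)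
    (h2 : ∀ x ∈ S, ∀ y ∈ S, x ≠ y → A G L x y) : Has (cliqueK1 t) G L := by
  refine has_ck.2 ⟨c, fun i => (S.equivFin.symm (Fin.castLE hs i)).1, fun i => h1 _ (Subtype.prop _),
    fun i j e => h2 _ (Subtype.prop _) _ (Subtype.prop _) fun x => e ?_⟩
  have := S.equivFin.symm.injective (Subtype.ext x)
  exact Fin.castLE_injective hs this

open Classical in
/-- a crude form of the theorem of Ramsey -/
lemma ramsey (G : SimpleGraph V) (a b : ℕ) : ∀ S : Finset V, 2 ^ (a + b) ≤ S.card →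
    (∃ T ⊆ S, T.card = a ∧ ∀ x ∈ T, ∀ y ∈ T, ¬ G.Adj x y) ∨
    ∃ T ⊆ S, T.card = b ∧ ∀ x ∈ T, ∀ y ∈ T, x ≠ y → G.Adj x y := by
  induction a generalizing b with
  | zero => exact fun S _ => Or.inl ⟨∅, by simp, by simp, by simp⟩
  | succ a iha =>
    induction b with
    | zero => exact fun S _ => Or.inr ⟨∅, by simp, by simp, by simp⟩
    | succ b ihb =>
      intro S hS
      obtain ⟨v, hv⟩ : S.Nonempty := by
        rw [← card_pos]
        exact lt_of_lt_of_le (by positivity) hS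
      have hc : (S.erase v).card = ((S.erase v).filter (G.Adj v)).card +
          ((S.erase v).filter fun x => ¬ G.Adj v x).card := (card_filter_add_card_filter_not _).symm
      rw [card_erase_of_mem hv] at hc
      have e1 : 2 ^ (a + 1 + (b + 1)) = 2 ^ (a + (b + 1)) + 2 ^ (a + 1 + b) := by
        rw [show a + 1 + (b + 1) = (a + (b + 1)) + 1 by ring, show a + 1 + b = a + (b + 1) by ring,
          pow_succ]
        ring
      have e2 : 0 < 2 ^ (a + 1 + b) := by positivity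
      by_cases h : 2 ^ (a + (b + 1)) ≤ ((S.erase v).filter fun x => ¬ G.Adj v x).card
      · rcases iha (b + 1) _ h with ⟨T, t1, t2, t3⟩ | ⟨T, t1, t2, t3⟩
        · have hT : ∀ x ∈ T, x ∈ S ∧ x ≠ v ∧ ¬ G.Adj v x := fun x hx => by
            have := mem_filter.1 (t1 hx)
            rw [mem_erase] at this
            exact ⟨this.1.2, this.1.1, this.2⟩
          refine Or.inl ⟨insert v T, ?_, ?_, ?_⟩
          · exact insert_subset hv fun x hx => (hT x hx).1
          · rw [card_insert_of_notMem fun hx => (hT v hx).2.1 rfl, t2]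
          · intro x hx y hy
            rcases mem_insert.1 hx with hx' | hx'
            · rcases mem_insert.1 hy with hy' | hy'
              · rw [hx', hy']
                exact G.loopless.irrefl _
              · rw [hx']
                exact (hT y hy').2.2
            · rcases mem_insert.1 hy with hy' | hy'
              · rw [hy']
                exact fun e => (hT x hx').2.2 e.symm
              · exact t3 x hx' y hy'
        · exact Or.inr ⟨T, t1.trans ((filter_subset _ _).trans (erase_subset _ _)), t2, t3⟩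
      · have h' : 2 ^ (a + 1 + b) ≤ ((S.erase v).filter (G.Adj v)).card := by omega
        rcases ihb _ h' with ⟨T, t1, t2, t3⟩ | ⟨T, t1, t2, t3⟩
        · exact Or.inl ⟨T, t1.trans ((filter_subset _ _).trans (erase_subset _ _)), t2, t3⟩
        · have hT : ∀ x ∈ T, x ∈ S ∧ x ≠ v ∧ G.Adj v x := fun x hx => by
            have := mem_filter.1 (t1 hx)
            rw [mem_erase] at this
            exact ⟨this.1.2, this.1.1, this.2⟩
          refine Or.inr ⟨insert v T, ?_, ?_, ?_⟩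
          · exact insert_subset hv fun x hx => (hT x hx).1
          · rw [card_insert_of_notMem fun hx => (hT v hx).2.1 rfl, t2]
          · intro x hx y hy e
            rcases mem_insert.1 hx with hx' | hx'
            · rcases mem_insert.1 hy with hy' | hy'
              · exact absurd (hx'.trans hy'.symm) e
              · rw [hx']
                exact (hT y hy').2.2
            · rcases mem_insert.1 hy with hy' | hy'
              · rw [hy']
                exact (hT x hx').2.2.symm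
              · exact t3 x hx' y hy' e

/-- the bound on the degrees -/
def DD (s t : ℕ) : ℕ := (t + 1) * 2 ^ (s + t)

open Classical in
lemma struct [Fintype V] {s t : ℕ} (h1 : ¬ Has (starK s) G L) (h2 : ¬ Has (cliqueK1 t) G L) :
    ∃ Γ ∈ [G, Gᶜ], ∀ v, U L v → (univ.filter (Γ.Adj v)).card ≤ DD s t + 2 * L.length := by
  have aa : ∀ {a b}, U L b → G.Adj a b → A G L a b := fun h e => h.a e.ne (.refl _) e
  have ind : ∀ (c) (S : Finset V), (∀ y ∈ S, U L y ∧ G.Adj c y) →
      (∀ x ∈ S, ∀ y ∈ S, ¬ G.Adj x y) → S.card < s := fun c S h g => by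
    by_contra e
    exact h1 (star_of c S (not_lt.1 e) (fun x hx => aa (h x hx).1 (h x hx).2)
      fun x hx y hy n => (h x hx).1.n (h y hy).1 n (g x hx y hy))
  have fin : ∀ (Γ : SimpleGraph V) v, (univ.filter fun x => U L x ∧ Γ.Adj v x).card ≤ DD s t →
      (univ.filter (Γ.Adj v)).card ≤ DD s t + 2 * L.length := fun Γ v h =>
    (card_le_card (t := (univ.filter fun x => U L x ∧ Γ.Adj v x) ∪ tch L) fun x hx => by
      simp only [mem_union, mem_filter, mem_tch] at *; tauto).trans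
      ((card_union_le _ _).trans (add_le_add h card_tch))
  have pw : t ≤ 2 ^ (s + t) := by
    calc t ≤ 2 ^ t := Nat.lt_two_pow_self.le
      _ ≤ 2 ^ (s + t) := Nat.pow_le_pow_right (by norm_num) (by omega)
  by_cases c : ∃ T : Finset V, T.card = t ∧ (∀ x ∈ T, U L x) ∧ ∀ x ∈ T, ∀ y ∈ T, x ≠ y → G.Adj x y
  · obtain ⟨T, T1, T2, T3⟩ := c
    refine ⟨Gᶜ, by simp, fun v hv => fin _ _ ?_⟩
    have sub : (univ.filter fun x => U L x ∧ Gᶜ.Adj v x) ⊆
        T ∪ T.biUnion fun e => univ.filter fun x => (U L x ∧ Gᶜ.Adj v x) ∧ G.Adj e x := by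
      intro x hx
      simp only [mem_filter, mem_univ, true_and] at hx
      rw [mem_union, mem_biUnion]
      by_contra hcon
      push Not at hcon
      refine h2 (ck_of x T T1.ge (fun y hy => ?_) fun y hy z hz n => aa (T2 z hz) (T3 y hy z hz n))
      refine hx.1.n (T2 y hy) (fun e => hcon.1 (e ▸ hy)) fun e => hcon.2 y hy ?_
      simp only [mem_filter, mem_univ, true_and]
      exact ⟨hx, e.symm⟩
    have small : ∀ e ∈ T, (univ.filter fun x => (U L x ∧ Gᶜ.Adj v x) ∧ G.Adj e x).card ≤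
        2 ^ (s + t) := by
      intro e he
      by_contra hcon
      have mem : ∀ {x}, x ∈ (univ.filter fun x => (U L x ∧ Gᶜ.Adj v x) ∧ G.Adj e x) →
          (U L x ∧ Gᶜ.Adj v x) ∧ G.Adj e x := fun h => (mem_filter.1 h).2
      rcases ramsey G s t _ (not_le.1 hcon).le with ⟨S, s1, s2, s3⟩ | ⟨S, s1, s2, s3⟩
      · have := ind e S (fun y hy => ⟨(mem (s1 hy)).1.1, (mem (s1 hy)).2⟩) s3
        omega
      · exact h2 (ck_of v S s2.ge (fun y hy => hv.n (mem (s1 hy)).1.1 (mem (s1 hy)).1.2.1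
          (mem (s1 hy)).1.2.2) fun y hy z hz n => aa (mem (s1 hz)).1.1 (s3 y hy z hz n))
    have fi : (univ.filter fun x => U L x ∧ Gᶜ.Adj v x).card ≤ t + T.card * 2 ^ (s + t) :=
      ((card_le_card sub).trans (card_union_le _ _)).trans (add_le_add T1.le
        (card_biUnion_le_card_mul _ _ _ small))
    rw [T1] at fi
    have fi2 : (univ.filter fun x => U L x ∧ Gᶜ.Adj v x).card ≤ DD s t := by
      unfold DD
      nlinarith
    convert fi2
  · refine ⟨G, by simp, fun v hv => fin _ _ ?_⟩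
    by_contra hcon
    have mem : ∀ {x}, x ∈ (univ.filter fun x => U L x ∧ G.Adj v x) → U L x ∧ G.Adj v x :=
      fun h => (mem_filter.1 h).2
    have h0 : 2 ^ (s + t) ≤ DD s t := by unfold DD; nlinarith [Nat.zero_le (t * 2 ^ (s + t))]
    rcases ramsey G s t _ (h0.trans (not_le.1 hcon).le) with ⟨S, s1, s2, s3⟩ | ⟨S, s1, s2, s3⟩
    · have := ind v S (fun y hy => mem (s1 hy)) s3
      omega
    · exact c ⟨S, s2, fun x hx => (mem (s1 hx)).1, s3⟩

/-- some graph of the family is an induced subgraph after the contractions -/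
def Bad (F : Set (Σ n : ℕ, SimpleGraph (Fin n))) (G : SimpleGraph V) (L : List (V × V)) : Prop :=
  ∃ H ∈ F, Has H G L

lemma Bad.loc [DecidableEq V] {F : Set (Σ n : ℕ, SimpleGraph (Fin n))} {q : ℕ}
    (hF : ∀ H ∈ F, H.1 < q) {L' : List (V × V)}
    (h : ∀ Z : Finset V, Z.card < q → ∃ σ : V → V, ∀ a ∈ Z, ∀ b ∈ Z,
      (A G L a b → A G L' (σ a) (σ b)) ∧ (N G L a b → N G L' (σ a) (σ b))) (b : Bad F G L) :
    Bad F G L' := by
  obtain ⟨H, hH, z, hz⟩ := b
  obtain ⟨σ, hσ⟩ := h (univ.image z) (card_image_le.trans_lt (by simpa using hF H hH))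
  refine ⟨H, hH, fun i => σ (z i), fun i j e => ?_⟩
  obtain ⟨h1, h2⟩ := hz i j e
  have m : ∀ i, z i ∈ univ.image z := fun i => mem_image_of_mem _ (mem_univ _)
  obtain ⟨g1, g2⟩ := hσ _ (m i) _ (m j)
  by_cases x : H.2.Adj i j
  · have y := g1 ⟨h1, h2.1 x⟩
    exact ⟨y.1, iff_of_true x y.2⟩
  · have y := g2 ⟨h1, fun c => x (h2.2 c)⟩
    exact ⟨y.1, iff_of_false x y.2⟩

variable {Γ : SimpleGraph V} {X : Set V}

theorem exch {F : Set (Σ n : ℕ, SimpleGraph (Fin n))} {q : ℕ} (hq0 : 0 < q)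
    (hF : ∀ H ∈ F, H.1 < q) (hG : Γ ∈ [G, Gᶜ]) {S : Set V} {k ρ : ℕ} (hρ : q * (2 * k + 1) ≤ ρ)
    (hS : ∀ v ∉ S, v ∉ X ∧ ∀ T : Finset V, T.card ≤ 2 * k → ∃ w ∉ X, Sim Γ X ρ v w ∧
      (∀ a, Nr Γ X ρ w a → a ∈ S) ∧ ∀ t ∈ T, ¬ Nr Γ X (ρ + ρ) t w)
    (h : Sol G k fun L => ¬ Bad F G L) :
    Sol G k fun L => ¬ Bad F G L ∧ ∀ a, ¬ U L a → a ∈ S := by
  classical
  obtain ⟨L, l1, l2, l3⟩ := h
  induction hm : ((tch L).filter (· ∉ S)).card using Nat.strong_induction_on generalizing L with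
  | _ m ih =>
  by_cases c : ∀ a, ¬ U L a → a ∈ S
  · exact ⟨L, l1, l2, l3, c⟩
  push Not at c
  obtain ⟨v, v1, v2⟩ := c
  have tk : (tch L).card ≤ 2 * k := card_tch.trans (by omega)
  obtain ⟨w, w1, w2, w3, w4⟩ := (hS v v2).2 _ tk
  simp only [mem_tch] at w4
  obtain ⟨f, σ, hσ⟩ := swap (hS v v2).1 w1 w2 fun a x y => w4 v v1 (x.add y.symm)
  obtain ⟨j, j1, j2⟩ := chain (fun j => Nr Γ X (q * j) v)
    (fun j a e => e.mono (Nat.mul_le_mul_left q (Nat.le_succ j))) (tch L)
  simp only [mem_tch] at j2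
  have hj : q * j + q ≤ ρ := by
    have : q * (j + 1) ≤ q * (2 * k + 1) := Nat.mul_le_mul_left q (by omega)
    rw [mul_add, mul_one] at this
    omega
  rw [mul_add, mul_one] at j2
  have t1 : ∀ r ≤ ρ, ∀ t, ¬ U L t → ¬ Nr Γ X r w t := fun r e t x y => w4 t x (y.symm.mono (by omega))
  have t2 : ∀ i < q, ∀ t, ¬ U L t → σ (q * j + i) t = σ (q * j) t := fun i e t x => by
    by_cases y : Nr Γ X (q * j) v t
    · rw [((hσ _ (by omega)).2.1 t y).1, ((hσ _ (by omega)).2.1 t (y.mono (by omega))).1]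
    · rw [(hσ _ (by omega)).2.2.1 t y (t1 _ (by omega) t x), (hσ _ (by omega)).2.2.1 t
        (fun z => y (j2 t x (z.mono (by omega)))) (t1 _ (by omega) t x)]
  have t3 : ∀ p ∈ L, ¬ U L p.1 ∧ ¬ U L p.2 := fun p e => ⟨fun x => (x p e).1 rfl, fun x => (x p e).2 rfl⟩
  have t4 : ∀ a, ¬ U (L.map (Prod.map (σ (q * j)) (σ (q * j)))) a →
      Nr Γ X (q * j) w a ∨ (¬ U L a ∧ ¬ Nr Γ X (q * j) v a) := fun a x => by
    obtain ⟨t, x', rfl⟩ : ∃ t, ¬ U L t ∧ σ (q * j) t = a := by
      simp only [U, List.mem_map, forall_exists_index, and_imp, forall_apply_eq_imp_iff₂, not_forall,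
        not_and_or, not_not] at x
      obtain ⟨p, x, y⟩ := x
      exact y.elim (fun y => ⟨_, (t3 p x).1, y⟩) fun y => ⟨_, (t3 p x).2, y⟩
    by_cases y : Nr Γ X (q * j) v t
    · have := (hσ _ (by omega)).2.1 t y
      exact Or.inl (this.1 ▸ this.2)
    · rw [(hσ _ (by omega)).2.2.1 t y (t1 _ (by omega) t x')]; exact Or.inr ⟨x', y⟩
  have t5 : ∀ i < q, ∀ a, ¬ U L a → Nr Γ X (q * j + i + 1) v a ∨ Nr Γ X (q * j + i + 1) w a →
      Nr Γ X (q * j + i) v a ∨ Nr Γ X (q * j + i) w a := fun i e a x y => Or.inl ((j2 a x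
    ((y.resolve_right (t1 _ (by omega) a x)).mono (by omega))).mono (by omega))
  have t6 : ∀ r < ρ, ∀ a b, (Nr Γ X (r + 1) v a ∨ Nr Γ X (r + 1) w a → Nr Γ X r v a ∨ Nr Γ X r w a) →
      (Nr Γ X (r + 1) v b ∨ Nr Γ X (r + 1) w b → Nr Γ X r v b ∨ Nr Γ X r w b) →
      (G.Adj (σ r a) (σ r b) ↔ G.Adj a b) := fun r e a b x y => by
    have := (hσ r e).2.2.2 a b x y
    have i : σ r a = σ r b ↔ a = b := (Function.Involutive.injective (hσ r e).1).eq_iff
    simp only [List.mem_cons, List.not_mem_nil, or_false] at hG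
    rcases hG with rfl | rfl
    · exact this
    · by_cases c : a = b
      · simp [c]
      · simpa [i, c, not_iff_not] using this
  refine ih _ ?_ (L.map (Prod.map (σ (q * j)) (σ (q * j)))) (by simpa) ?_
    (fun b => l3 (b.loc hF fun Z hZ => ?_)) rfl
  · refine hm ▸ card_lt_card ⟨fun a x => ?_, fun x => ?_⟩
    · simp only [mem_filter, mem_tch] at x ⊢
      exact ⟨((t4 a x.1).resolve_left fun y => x.2 (w3 a (y.mono (by omega)))).1, x.2⟩
    · have := x (show v ∈ _ by simp [mem_tch, v1, v2])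
      simp only [mem_filter, mem_tch] at this
      exact (t4 v this.1).elim (t1 _ (by omega) v v1) fun y => y.2 (Nr.mono (r := 0) rfl (by omega))
  · simp only [List.mem_map, forall_exists_index, and_imp, forall_apply_eq_imp_iff₂]
    exact fun p e => (t6 _ (by omega) _ _ (t5 0 (by omega) _ (t3 p e).1) (t5 0 (by omega) _ (t3 p e).2)).2
      (l2 p e)
  obtain ⟨i, i1, i2⟩ := chain (fun i a => Nr Γ X (q * j + i) v a ∨ Nr Γ X (q * j + i) w a)
    (fun i a e => e.imp (·.mono (by omega)) (·.mono (by omega))) Z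
  have s1 := (hσ (q * j + i) (by omega)).1
  have s2 : ∀ a b, (a, b) ∈ L.map (Prod.map (σ (q * j)) (σ (q * j))) ↔
      (σ (q * j + i) a, σ (q * j + i) b) ∈ L := fun a b => by
    simp only [List.mem_map, Prod.exists, Prod.map, Prod.mk.injEq]
    constructor
    · rintro ⟨c, d, e, rfl, rfl⟩
      rwa [← t2 i (by omega) c (t3 _ e).1, ← t2 i (by omega) d (t3 _ e).2, s1, s1]
    · exact fun e => ⟨_, _, e, by rw [← t2 i (by omega) _ (t3 _ e).1, s1],
        by rw [← t2 i (by omega) _ (t3 _ e).2, s1]⟩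
  generalize L.map (Prod.map (σ (q * j)) (σ (q * j))) = L' at *
  have s3 : ∀ a b, R L' a b ↔ R L (σ (q * j + i) a) (σ (q * j + i) b) := fun a b =>
    ⟨R.map _ fun _ _ => (s2 _ _).1, fun e => by
      have := R.map (L' := L') (σ (q * j + i)) (fun _ _ e => by simpa only [s2, s1] using e) e
      rwa [s1, s1] at this⟩
  have s4 : ∀ a ∈ Z, ∀ b, R L' a b → Nr Γ X (q * j + i + 1) v b ∨ Nr Γ X (q * j + i + 1) w b →
      Nr Γ X (q * j + i) v b ∨ Nr Γ X (q * j + i) w b := fun a x b e => by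
    by_cases c : U L' b
    · exact c.eq e.symm ▸ i2 a x
    · exact (t4 b c).elim (fun y _ => Or.inr (y.mono (by omega))) fun y => t5 i (by omega) b y.1
  have s5 : ∀ a ∈ Z, ∀ b ∈ Z, CA G L' a b ↔ CA G L (σ (q * j + i) a) (σ (q * j + i) b) :=
    fun a x b y => ⟨fun ⟨c, d, e1, e2, e⟩ => ⟨_, _, (s3 _ _).1 e1, (s3 _ _).1 e2,
      (t6 _ (by omega) _ _ (s4 a x c e1) (s4 b y d e2)).2 e⟩, fun ⟨c, d, e1, e2, e⟩ => by
      rw [← s1 c, ← s3] at e1
      rw [← s1 d, ← s3] at e2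
      exact ⟨_, _, e1, e2, (t6 _ (by omega) _ _ (s4 a x _ e1) (s4 b y _ e2)).1 (by rwa [s1, s1])⟩⟩
  exact ⟨σ (q * j + i), fun a x b y => by simp [A, N, s3, s5 a x b y]⟩

end Pool.Agent.KS6_65.CF
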