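import Pool.Graph.R_pool_sql_team_22a80281.Lib.helper10_.Con2
import Pool.Graph.R_pool_sql_team_22a80281.Lib.helper10_.FPT
import Pool.Agent.KS6_65.CF.Base

/-! The fixed-parameter algorithm for finite families with members inside a star and inside a
clique plus an isolated vertex. -/

namespace Pool.Agent.KS6_65.CF

open Pool.Agent.Cx Pool.Agent.Cx.Con Pool.Agent.Cis List Function Polynomial

abbrev I := List (List Bool) × ℕ
abbrev Z := I × Bool

/-- the radius -/
def rh (q k : ℕ) : ℕ := q * (2 * k + 1)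

def ga (z : Z) (a b : ℕ) : Prop := a ≠ b ∧ ¬ ent z.1.1 a b = z.2
instance (z : Z) : DecidableRel (ga z) := fun _ _ => by unfold ga; infer_instance
def xs (D : ℕ) (z : Z) : List ℕ := (range z.1.1.length).filter fun v =>
  decide (D + 2 * z.1.2 < (range z.1.1.length).countP fun y => decide (ga z v y))
def nb (D : ℕ) (z : Z) (u : ℕ) : List ℕ :=
  (range z.1.1.length).filter fun y => decide (ga z u y ∧ ¬ u ∈ xs D z ∧ ¬ y ∈ xs D z)
def ad (D : ℕ) (z : Z) (v : ℕ) (w : List ℕ) : ℕ := w.foldl (fun u i => (nb D z u).getD i u) v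
def W (D q : ℕ) (y : I) : List (List ℕ) :=
  words (range (D + 2 * y.2)) (rh q y.2 + rh q y.2) y.1.length
def probes (D q : ℕ) (z : Z) : List (List ℕ × List ℕ × ℕ) :=
  (W D q z.1).flatMap fun w => (W D q z.1).flatMap fun w' =>
  (0 :: 1 :: (xs D z).map fun x => x + 2).map fun c => (w, w', c)
def ty (D q : ℕ) (z : Z) (v : ℕ) : List Bool := (probes D q z).map fun p => decide
  ((p.2.2 = 0 ∧ ad D z v p.1 = ad D z v p.2.1) ∨ (p.2.2 = 1 ∧ ga z (ad D z v p.1) (ad D z v p.2.1)) ∨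
    (1 < p.2.2 ∧ ga z (ad D z v p.1) (p.2.2 - 2)))
def reps (D q : ℕ) (z : Z) (t : List Bool) : List ℕ := ((range z.1.1.length).filter fun u =>
  decide (¬ u ∈ xs D z ∧ ty D q z u = t)).take (2 * z.1.2 * (W D q z.1).length + 1)
def rs (D q : ℕ) (z : Z) (y : ℕ) : Prop :=
  y ∈ xs D z ∨ ∃ v < z.1.1.length, ∃ u ∈ reps D q z (ty D q z v), ∃ w ∈ W D q z.1, ad D z u w = y
def pw (D q : ℕ) (y : I) : ℕ :=
  (fun x => min (x * (D + 2 * y.2 + 1)) (y.1.length + 1))^[rh q y.2 + rh q y.2] 1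
open Classical in
noncomputable def RR (D q : ℕ) (y : I) : List ℕ := (range y.1.length).filter fun a =>
  decide (y.1.length < pw D q y ∨ ∃ b ∈ [false, true], (xs D (y, b)).length ≤ 2 * y.2 ∧
    rs D q (y, b) a)
noncomputable def EE (D q : ℕ) (y : I) : List (ℕ × ℕ) :=
  (RR D q y).flatMap fun a => (RR D q y).map fun b => (a, b)
def rc (n : ℕ) (L : List (ℕ × ℕ)) (a : ℕ) : List ℕ := clo n (fun D x =>
  decide (x ∈ D ∨ ∃ p ∈ L, (p.1 ∈ D ∧ p.2 = x) ∨ (p.2 ∈ D ∧ p.1 = x))) [a]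
def ca (M : List (List Bool)) (L : List (ℕ × ℕ)) (a b : ℕ) : Prop :=
  ∃ c ∈ rc M.length L a, ∃ d ∈ rc M.length L b, ent M c d = true
/-- a pair of positions where the word does not match the pattern -/
def mis (E : List (ℕ × ℕ)) (M : List (List Bool)) (L : List (ℕ × ℕ)) (w : List ℕ) (i j : ℕ) : Prop :=
  i ≠ j ∧ ¬ (¬ w.getD j 0 ∈ rc M.length L (w.getD i 0) ∧
    ((i, j) ∈ E ↔ ca M L (w.getD i 0) (w.getD j 0)))
/-- the list `Fl` of patterns, given by sizes and edge lists; all sizes less than `q` -/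
def bad (Fl : List (ℕ × List (ℕ × ℕ))) (q : ℕ) (M : List (List Bool)) (L : List (ℕ × ℕ)) : Prop :=
  ∃ p ∈ Fl, ∃ w ∈ words (range M.length) p.1 ((M.length + 1) ^ q), w.length = p.1 ∧
    ¬ ∃ i < p.1, ∃ j < p.1, mis p.2 M L w i j
def test (D : ℕ) (Fl : List (ℕ × List (ℕ × ℕ))) (q : ℕ) (y : I) (m : ℕ) : Prop :=
  IsGraph y.1 ∧ ∃ L ∈ words (EE D q y) y.2 m,
  (¬ ∃ p ∈ L, ¬ (p.1 < y.1.length ∧ p.2 < y.1.length ∧ ent y.1 p.1 p.2 = true)) ∧ ¬ bad Fl q y.1 L

variable {D q : ℕ}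

lemma ad_lt (z : Z) (v : ℕ) (w : List ℕ) : ad D z v w = v ∨ ad D z v w < z.1.1.length := by
  induction w using List.reverseRecOn with
  | nil => exact Or.inl rfl
  | append_singleton w i ih =>
    rw [ad, foldl_concat, ← ad, getD_eq_getElem?_getD]
    rcases e : (nb D z (ad D z v w))[i]? with _ | x
    · exact ih
    · exact Or.inr (by simpa using (mem_filter.1 (mem_of_getElem? e)).1)

lemma pw_eq (y : I) (i : ℕ) : (fun x => min (x * (D + 2 * y.2 + 1)) (y.1.length + 1))^[i] 1 =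
    min ((D + 2 * y.2 + 1) ^ i) (y.1.length + 1) := by
  induction i with
  | zero => simp
  | succ i ih =>
    rw [iterate_succ_apply', ih, pow_succ, min_mul]
    have : y.1.length + 1 ≤ (y.1.length + 1) * (D + 2 * y.2 + 1) := Nat.le_mul_of_pos_right _ (by omega)
    omega

lemma pt_rh : PT fun k => rh q k := by unfold rh; fun_prop

lemma pt_RR : PT (RR D q) := by
  classical
  have a0 : PT fun k => rh q k := pt_rh
  have a1 : PP fun p : Z × ℕ × ℕ => ga p.1 p.2.1 p.2.2 := by unfold ga; fun_prop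
  have a2 : PT (xs D) := PT.filter (PP.decide (PP.lt (by fun_prop)
    (PT.countP (PP.decide (by fun_prop)) (by fun_prop)))) (by fun_prop)
  have a3 : PT fun p : Z × ℕ => nb D p.1 p.2 := PT.filter (PP.decide (by fun_prop)) (by fun_prop)
  have a4 : PT fun p : Z × ℕ × List ℕ => ad D p.1 p.2.1 p.2.2 :=
    PT.foldl (by fun_prop) (by fun_prop) (by fun_prop) (2 * X + 1) fun ⟨⟨⟨M, k⟩, b⟩, v, w⟩ i => by
      have := ad_lt (D := D) ((M, k), b) v (w.take i)
      have := length_lt_size M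
      change size (ad D _ v (w.take i)) ≤ _
      simp at *; omega
  have a5 : PT (W D q) := by unfold W; fun_prop
  have a6 : PT (probes D q) := by unfold probes; fun_prop
  have a7 : PT fun p : Z × ℕ => ty D q p.1 p.2 := PT.map (PP.decide (by fun_prop)) (by fun_prop)
  have a8 : PT fun p : Z × List Bool => reps D q p.1 p.2 :=
    PT.take (by fun_prop) (PT.filter (PP.decide (by fun_prop)) (by fun_prop))
  have a9 : PP fun p : Z × ℕ => rs D q p.1 p.2 := by unfold rs; fun_prop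
  have b1 : PT (pw D q) :=
    PT.iterate (by fun_prop) (by fun_prop) (by fun_prop) (2 * X + 1) fun ⟨M, k⟩ i _ => by
      have := length_lt_size M
      rw [pw_eq]; simp; omega
  exact PT.filter (PP.decide (by fun_prop)) (by fun_prop)

lemma pp_test (Fl : List (ℕ × List (ℕ × ℕ))) : PP fun p : I × ℕ => test D Fl q p.1 p.2 := by
  have a0 := pp_isGraph
  have a1 : PT (RR D q) := pt_RR
  have a2 : PT (EE D q) := by unfold EE; fun_prop
  have a3 : PT fun p : ℕ × List (ℕ × ℕ) × ℕ => rc p.1 p.2.1 p.2.2 :=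
    PT.clo (by fun_prop) (PP.decide (by fun_prop)) (by fun_prop)
  have a4 : PP fun p : List (List Bool) × List (ℕ × ℕ) × ℕ × ℕ => ca p.1 p.2.1 p.2.2.1 p.2.2.2 := by
    unfold ca; fun_prop
  have a5 : PP fun p : List (ℕ × ℕ) × List (List Bool) × List (ℕ × ℕ) × List ℕ × ℕ × ℕ =>
      mis p.1 p.2.1 p.2.2.1 p.2.2.2.1 p.2.2.2.2.1 p.2.2.2.2.2 := by
    unfold mis; fun_prop
  have a7 : PP fun p : List (List Bool) × List (ℕ × ℕ) => bad Fl q p.1 p.2 := by
    unfold bad; fun_prop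
  unfold test; fun_prop

lemma mem_rc {n : ℕ} (L : List (Fin n × Fin n)) (a : Fin n) (b : ℕ) :
    b ∈ rc n (L.map (Prod.map Fin.val Fin.val)) a ↔ ∃ h, R L a ⟨b, h⟩ := by
  constructor
  · refine clo_ind [a.1] (P := fun b => ∃ h, R L a ⟨b, h⟩) (by simp [R.refl]) (fun E h x _ e => ?_) b
    simp only [decide_eq_true_eq, mem_map, exists_exists_and_eq_and, Prod.map] at e
    rcases e with e | ⟨p, e, ⟨c, rfl⟩ | ⟨c, rfl⟩⟩
    exacts [h _ e, ⟨p.2.2, (h _ c).2.tail (Or.inl e)⟩, ⟨p.1.2, (h _ c).2.tail (Or.inr e)⟩]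
  · rintro ⟨h, r⟩
    change (⟨b, h⟩ : Fin n).1 ∈ _
    generalize (⟨b, h⟩ : Fin n) = b at *
    induction r with
    | refl => exact sub_clo (by simp +contextual) _ (by simp) a.2
    | @tail c d _ e ih =>
      refine clo_fix (by simp +contextual) _ d.2 (decide_eq_true (Or.inr ?_))
      exact e.elim (fun e => ⟨_, mem_map_of_mem e, Or.inl ⟨ih, rfl⟩⟩)
        fun e => ⟨_, mem_map_of_mem e, Or.inr ⟨ih, rfl⟩⟩

open Classical in
/-- the edge list of a pattern -/
noncomputable def edl (H : Σ n : ℕ, SimpleGraph (Fin n)) : List (ℕ × ℕ) :=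
  (List.range H.1 ×ˢ List.range H.1).filter fun p =>
    decide (∃ (h1 : p.1 < H.1) (h2 : p.2 < H.1), H.2.Adj ⟨p.1, h1⟩ ⟨p.2, h2⟩)

lemma mem_edl {H : Σ n : ℕ, SimpleGraph (Fin n)} (i j : Fin H.1) :
    (i.1, j.1) ∈ edl H ↔ H.2.Adj i j := by
  simp only [edl, List.mem_filter, List.mem_product, List.mem_range, decide_eq_true_eq]
  constructor
  · rintro ⟨-, h1, h2, h⟩
    exact h
  · intro h
    exact ⟨⟨i.2, j.2⟩, i.2, j.2, h⟩

/-- the constant describing the family -/
noncomputable def code (l : List (Σ n : ℕ, SimpleGraph (Fin n))) : List (ℕ × List (ℕ × ℕ)) :=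
  l.map fun H => (H.1, edl H)

lemma bad_iff {F : Set (Σ n : ℕ, SimpleGraph (Fin n))} {l : List (Σ n : ℕ, SimpleGraph (Fin n))}
    (hl : ∀ H, H ∈ l ↔ H ∈ F) (hq : ∀ H ∈ F, H.1 < q) {M : List (List Bool)} (h : IsGraph M)
    (L : List (Fin M.length × Fin M.length)) :
    bad (code l) q M (L.map (Prod.map Fin.val Fin.val)) ↔ Bad F (graphOf M) L := by
  have a : ∀ a b : Fin M.length, ca M (L.map (Prod.map Fin.val Fin.val)) a b ↔ CA (graphOf M) L a b :=
    fun a b => by
      simp only [ca, CA, mem_rc, adj_iff h]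
      exact ⟨fun ⟨_, ⟨_, x⟩, _, ⟨_, y⟩, e⟩ => ⟨_, _, x, y, e⟩, fun ⟨c, d, x, y, e⟩ =>
        ⟨_, ⟨c.2, x⟩, _, ⟨d.2, y⟩, e⟩⟩
  have b : ∀ a b : Fin M.length, b.1 ∈ rc M.length (L.map (Prod.map Fin.val Fin.val)) a ↔
      R L a b := fun a b => by
    rw [mem_rc]
    exact ⟨fun ⟨_, x⟩ => x, fun x => ⟨b.2, x⟩⟩
  have key : ∀ (H : Σ n : ℕ, SimpleGraph (Fin n)) (w : List ℕ) (z : Fin H.1 → Fin M.length),
      (∀ i : Fin H.1, w.getD i.1 0 = (z i).1) →
      ((¬ ∃ i < H.1, ∃ j < H.1, mis (edl H) M (L.map (Prod.map Fin.val Fin.val)) w i j) ↔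
        ∀ i j, i ≠ j → ¬ R L (z i) (z j) ∧ (H.2.Adj i j ↔ CA (graphOf M) L (z i) (z j))) := by
    intro H w z hz
    constructor
    · intro hn i j e
      by_contra c
      refine hn ⟨i.1, i.2, j.1, j.2, fun x => e (Fin.ext x), fun y => c ?_⟩
      rw [hz, hz, b, mem_edl, a] at y
      exact y
    · rintro hn ⟨i, i1, j, j1, e, c⟩
      refine c ?_
      have e1 := hz ⟨i, i1⟩
      have e2 := hz ⟨j, j1⟩
      simp only at e1 e2
      rw [e1, e2, b, a]
      have := hn ⟨i, i1⟩ ⟨j, j1⟩ fun x => e (Fin.mk.inj x)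
      rw [← mem_edl] at this
      exact this
  constructor
  · rintro ⟨p, p1, w, w1, w2, w3⟩
    obtain ⟨H, hH, rfl⟩ := List.mem_map.1 p1
    have hw := (words_len _ _ _ _ w1).2
    simp only at w2 w3 hw
    have hz : ∀ i : Fin H.1, w.getD i.1 0 < M.length := fun i => by
      have : i.1 < w.length := by rw [w2]; exact i.2
      rw [getD_eq_getElem _ _ this]
      exact List.mem_range.1 (hw _ (getElem_mem _))
    exact ⟨H, (hl H).1 hH, fun i => ⟨_, hz i⟩, (key H w (fun i => ⟨_, hz i⟩) fun i => rfl).1 w3⟩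
  · rintro ⟨H, hH, z, hz⟩
    have hlen : (List.ofFn fun i => (z i).1).length = H.1 := by simp
    refine ⟨(H.1, edl H), List.mem_map.2 ⟨H, (hl H).2 hH, rfl⟩, List.ofFn fun i => (z i).1,
      (mem_words ?_).2 _ (by simp) ?_, hlen, ?_⟩
    · rw [List.length_range]
      exact Nat.pow_le_pow_right (by omega) (hq H hH).le
    · intro x hx
      obtain ⟨i, rfl⟩ := (List.mem_ofFn' _ _).1 hx
      exact List.mem_range.2 (z i).2
    · refine (key H _ z fun i => ?_).2 hz
      rw [getD_eq_getElem _ _ (by rw [hlen]; exact i.2)]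
      simp

def Gm (z : Z) : SimpleGraph (Fin z.1.1.length) := if z.2 then (graphOf z.1.1)ᶜ else graphOf z.1.1
def XS (D : ℕ) (z : Z) : Set (Fin z.1.1.length) := {v | v.1 ∈ xs D z}

section
variable {z : Z} (h : IsGraph z.1.1)
include h

lemma gm_adj (a b : Fin z.1.1.length) : (Gm z).Adj a b ↔ ga z a b := by
  obtain ⟨⟨M, k⟩, _ | _⟩ := z
  · change (graphOf M).Adj a b ↔ _
    rw [adj_iff h]
    simpa [ga, Fin.val_inj] using fun e : ent M a b = true => ((adj_iff h a b).2 e).ne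
  · simp [Gm, ga, adj_iff h, Fin.val_inj]

lemma ad_nr (v : Fin z.1.1.length) (w : List ℕ) :
    ∃ e, Nr (Gm z) (XS D z) w.length v ⟨ad D z v w, e⟩ := by
  induction w using List.reverseRecOn with
  | nil => exact ⟨v.2, rfl⟩
  | append_singleton w i ih =>
    obtain ⟨e, ih⟩ := ih
    have q : ad D z v (w ++ [i]) = (nb D z (ad D z v w))[i]?.getD (ad D z v w) := by
      rw [ad, foldl_concat, ← ad, getD_eq_getElem?_getD]
    rcases c : (nb D z (ad D z v w))[i]? with _ | x <;> rw [c] at q <;>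
      simp only [q, Option.getD, length_append, length_singleton]
    · exact ⟨e, _, ih, Or.inl rfl⟩
    · have := mem_filter.1 (mem_of_getElem? c)
      exact ⟨by simpa using this.1, _, ih, Or.inr (by simpa [gm_adj h, XS] using this.2)⟩

lemma nr_ad {r : ℕ} {v a : Fin z.1.1.length} (e : Nr (Gm z) (XS D z) r v a) :
    ∃ w : List ℕ, w.length ≤ r ∧ (∀ i ∈ w, i ∈ range (D + 2 * z.1.2)) ∧ ad D z v w = a := by
  induction r generalizing a with
  | zero => exact ⟨[], by simp, by simp, congrArg _ e⟩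
  | succ r ih =>
    obtain ⟨c, e, rfl | ⟨x, y, q⟩⟩ := e
    · exact let ⟨w, a, b⟩ := ih e; ⟨w, by omega, b⟩
    obtain ⟨w, w1, w2, w3⟩ := ih e
    obtain ⟨i, hi, i2⟩ := getElem_of_mem (show a.1 ∈ nb D z c by
      simpa [nb, ← gm_adj h, x] using ⟨y, q⟩)
    refine ⟨w ++ [i], by simpa, ?_, by rw [ad, foldl_concat, ← ad, w3, getD_eq_getElem _ _ hi, i2]⟩
    have : (nb D z c).length ≤ (range z.1.1.length).countP fun y => decide (ga z c y) := by
      rw [nb, ← countP_eq_length_filter]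
      exact countP_mono_left fun _ _ => by simp +contextual
    simp only [XS, xs, Set.mem_ofPred_eq, mem_filter, mem_range, c.2, decide_eq_true_eq, true_and] at y
    simp only [mem_append, mem_singleton]
    rintro _ (j | rfl)
    exacts [w2 _ j, mem_range.2 (by omega)]

lemma near (hn : ¬ z.1.1.length < pw D q z.1) (v : Fin z.1.1.length) (hv : ¬ rs D q z v) :
    v ∉ XS D z ∧
    ∀ T : Finset (Fin z.1.1.length), T.card ≤ 2 * z.1.2 → ∃ w ∉ XS D z,
      Sim (Gm z) (XS D z) (rh q z.1.2) v w ∧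
      (∀ a, Nr (Gm z) (XS D z) (rh q z.1.2) w a → rs D q z a) ∧
      ∀ t ∈ T, ¬ Nr (Gm z) (XS D z) (rh q z.1.2 + rh q z.1.2) t w := by
  have hW := (mem_words (l := range (D + 2 * z.1.2)) (k := rh q z.1.2 + rh q z.1.2)
    (m := z.1.1.length) (by rw [pw, pw_eq] at hn; simp at hn ⊢; omega)).2
  have nw : ∀ {r : ℕ} {v a : Fin z.1.1.length}, r ≤ rh q z.1.2 + rh q z.1.2 →
      Nr (Gm z) (XS D z) r v a → ∃ w ∈ W D q z.1, w.length ≤ r ∧ ad D z v w = a := fun c e =>
    let ⟨w, a, b, d⟩ := nr_ad h e; ⟨w, hW w (a.trans c) b, a, d⟩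
  have v1 : v.1 ∉ xs D z := fun e => hv (Or.inl e)
  refine ⟨v1, fun T hT => ?_⟩
  have v2 : v.1 ∉ reps D q z (ty D q z v) := fun e =>
    hv (Or.inr ⟨v, v.2, v, e, [], hW _ (by simp) (by simp), rfl⟩)
  obtain ⟨w, w1, w2⟩ := Finset.exists_mem_notMem_of_card_lt_card
    (t := (reps D q z (ty D q z v)).toFinset)
    (s := T.biUnion fun t => ((W D q z.1).map (ad D z t)).toFinset) (by
      rw [reps, toFinset_card_of_nodup ((nodup_range.filter _).sublist (take_sublist _ _))]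
      refine ((Finset.card_biUnion_le_card_mul _ _ (W D q z.1).length fun _ _ =>
        (toFinset_card_le _).trans (by simp)).trans (Nat.mul_le_mul_right _ hT)).trans_lt ?_
      by_contra c
      rw [reps, take_of_length_le (by rw [length_take] at c; omega)] at v2
      simp [v1] at v2)
  rw [mem_toFinset] at w1
  have w3 := mem_of_mem_take w1
  simp only [mem_filter, mem_range, decide_eq_true_eq] at w3
  lift w to Fin z.1.1.length using w3.1
  have l : ∀ (v : Fin z.1.1.length) w, ad D z v w < z.1.1.length := fun v w => (ad_nr h v w).1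
  refine ⟨w, w3.2.1, ⟨fun a b => ∃ u ∈ W D q z.1, ad D z v u = a ∧ ad D z w u = b,
    fun r c a e => ?_, fun r c a e => ?_, ?_, ?_⟩, fun a e => ?_, fun t ht e => w2 ?_⟩
  · obtain ⟨u, u1, u2, u3⟩ := nw (by omega) e
    exact ⟨_, (ad_nr h w u).2.mono u2, u, u1, u3, rfl⟩
  · obtain ⟨u, u1, u2, u3⟩ := nw (by omega) e
    exact ⟨_, (ad_nr h v u).2.mono u2, u, u1, rfl, u3⟩
  · rintro a b c d ⟨u, u1, u2, u3⟩ ⟨s, s1, s2, s3⟩
    have e0 := map_inj_left.1 w3.2.2 (u, s, 0) (by simp [probes, u1, s1])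
    have e1 := map_inj_left.1 w3.2.2 (u, s, 1) (by simp [probes, u1, s1])
    simp [u2, u3, s2, s3, Fin.val_inj] at e0 e1
    simp [gm_adj h, e0, e1]
  · rintro a b ⟨u, u1, u2, u3⟩ x e
    have e0 := map_inj_left.1 w3.2.2 (u, u, x + 2) (by simpa [probes, u1, XS] using e)
    simp [u2, u3] at e0
    simp [gm_adj h, e0]
  · obtain ⟨u, u1, -, u3⟩ := nw (by omega) e
    exact Or.inr ⟨v, v.2, w, w1, u, u1, u3⟩
  · obtain ⟨u, u1, -, u3⟩ := nw (by omega) e
    simpa using ⟨t, ht, u, u1, u3⟩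

end

def B (D q k : ℕ) : ℕ := (D + 2 * k + 1) ^ (rh q k + rh q k)
def Bd (D q k : ℕ) : ℕ := B D q k + 2 * (2 * k + 3 ^ (B D q k * (B D q k * (2 * k + 2))) *
  ((2 * k * B D q k + 1) * B D q k))

lemma fm {α β : Type} {l : List α} {f : α → List β} {a b : ℕ} (h : l.length ≤ a)
    (g : ∀ x ∈ l, (f x).length ≤ b) : (l.flatMap f).length ≤ a * b := by
  rw [length_flatMap]
  exact (sum_le_card_nsmul _ b (by simpa)).trans (by simpa using Nat.mul_le_mul_right b h)

lemma RR_le (y : I) : (RR D q y).length ≤ Bd D q y.2 := by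
  by_cases hn : y.1.length < pw D q y
  · refine (length_filter_le _ _).trans (le_add_right ?_)
    rw [pw, pw_eq] at hn; simp at hn ⊢; exact hn.le
  have hW : (W D q y).length ≤ B D q y.2 := by
    simpa [W, B] using (mem_words (l := range (D + 2 * y.2)) (k := rh q y.2 + rh q y.2)
      (m := y.1.length) (by rw [pw, pw_eq] at hn; simp at hn ⊢; omega)).1
  have hT := mem_words (l := [false, true]) (k := B D q y.2 * (B D q y.2 * (2 * y.2 + 2))) le_rfl
  refine le_add_left (((subperm_of_subset (nodup_range.filter _) (l₂ := [false, true].flatMap fun b =>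
    (xs D (y, b)).take (2 * y.2) ++ (words [false, true] (B D q y.2 * (B D q y.2 * (2 * y.2 + 2)))
      (3 ^ (B D q y.2 * (B D q y.2 * (2 * y.2 + 2))))).flatMap fun t =>
      (reps D q (y, b) t).flatMap fun u => (W D q y).map (ad D (y, b) u)) fun a e => ?_).length_le).trans
    (fm le_rfl fun b _ => ?_))
  · simp only [mem_filter, decide_eq_true_eq, hn, false_or] at e
    obtain ⟨-, b, b1, b2, e⟩ := e
    refine mem_flatMap.2 ⟨b, b1, mem_append.2 (e.imp (by rw [take_of_length_le b2]; exact id) ?_)⟩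
    rintro ⟨v, -, u, u1, w, w1, rfl⟩
    refine mem_flatMap.2 ⟨_, hT.2 _ ?_ (by simp), mem_flatMap.2 ⟨u, u1, mem_map_of_mem w1⟩⟩
    rw [ty, length_map]
    exact fm hW fun _ _ => fm hW fun _ _ => by simpa
  · rw [length_append]
    refine add_le_add (by simp) (fm hT.1 fun _ _ => fm ?_ fun _ _ => by simpa)
    rw [reps, length_take]
    exact (min_le_left _ _).trans (Nat.succ_le_succ (Nat.mul_le_mul_left _ hW))

lemma prim_Bd : Primrec fun k => k * (Bd D q k * Bd D q k) := by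
  have a : ∀ {f g : ℕ → ℕ}, Primrec f → Primrec g → Primrec fun k => f k + g k := Primrec.nat_add.comp
  have b : ∀ {f g : ℕ → ℕ}, Primrec f → Primrec g → Primrec fun k => f k * g k := Primrec.nat_mul.comp
  have c : ∀ {f g : ℕ → ℕ}, Primrec f → Primrec g → Primrec fun k => f k ^ g k := prim_pow.comp
  have d : Primrec fun k : ℕ => 2 * k := b (.const _) .id
  have r : Primrec (rh q) := b (.const _) (a d (.const _))
  have e : Primrec (B D q) := c (a (a (.const _) d) (.const _)) (a r r)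
  have f : Primrec (Bd D q) := a e (b (.const _) (a d (b (c (.const _) (b e (b e (a d (.const _)))))
    (b (a (b d e) (.const _)) e))))
  exact b .id (b f f)

/-- induced subgraphs of patterns -/
lemma Has.mono {V : Type} {G : SimpleGraph V} {L : List (V × V)}
    {H H' : Σ n : ℕ, SimpleGraph (Fin n)} (e : Nonempty (H.2 ↪g H'.2)) (h : Has H' G L) :
    Has H G L := by
  obtain ⟨f⟩ := e
  obtain ⟨z, hz⟩ := h
  refine ⟨fun i => z (f i), fun i j n => ?_⟩
  have := hz (f i) (f j) (fun x => n (f.injective x))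
  rw [f.map_adj_iff] at this
  exact this

theorem fpt {F : Set (Σ n : ℕ, SimpleGraph (Fin n))} (hF : F.Finite) {s t : ℕ}
    (hs : ∃ H ∈ F, Nonempty (H.2 ↪g (starK s).2)) (ht : ∃ H ∈ F, Nonempty (H.2 ↪g (cliqueK1 t).2)) :
    InFPT (FreeCon F) Prod.snd := by
  classical
  obtain ⟨q, hq⟩ : ∃ q, ∀ H ∈ F, H.1 < q := by
    obtain ⟨b, hb⟩ := (hF.image Sigma.fst).bddAbove
    exact ⟨b + 1, fun H hH => Nat.lt_succ_iff.2 (hb ⟨H, hH, rfl⟩)⟩
  have hq0 : 0 < q := by
    obtain ⟨H, hH, -⟩ := hs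
    exact Nat.lt_of_le_of_lt (Nat.zero_le _) (hq H hH)
  obtain ⟨l, hl⟩ : ∃ l : List (Σ n : ℕ, SimpleGraph (Fin n)), ∀ H, H ∈ l ↔ H ∈ F :=
    ⟨hF.toFinset.toList, fun H => by simp⟩
  generalize hD : DD s t = D at *
  refine inFPT_of_pad (j := fun y => y.2 * ((RR D q y).length * (RR D q y).length))
    (F := fun p => decide (test D (code l) q p.1 p.2)) (PP.decide (pp_test (code l)))
    (by have : PT (RR D q) := pt_RR
        fun_prop)
    (prim_Bd (D := D) (q := q)).to_comp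
    (fun y => Nat.mul_le_mul_left _ (Nat.mul_le_mul (RR_le y) (RR_le y))) fun y => ?_
  rw [decide_eq_true_eq, freeCon]
  refine and_congr_right fun h => ?_
  trans Sol (graphOf y.1) y.2 fun L => ¬ Bad F (graphOf y.1) L
  · simp only [Bad, not_exists, not_and]
  constructor
  · intro s'
    obtain ⟨L, l1, l2, l3, l4⟩ : Sol (graphOf y.1) y.2 fun L => ¬ Bad F (graphOf y.1) L ∧
        ∀ a, ¬ U L a → a.1 ∈ RR D q y := by
      by_cases hn : y.1.length < pw D q y
      · exact s'.imp fun L l => ⟨l.1, l.2.1, l.2.2, by simp [RR, hn]⟩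
      obtain ⟨L, l1, -, l3⟩ := id s'
      obtain ⟨Γ, g1, g2⟩ := struct (s := s) (t := t) (G := graphOf y.1) (L := L)
        (fun e => l3 (let ⟨H, h1, h2⟩ := hs; ⟨H, h1, Has.mono h2 e⟩))
        fun e => l3 (let ⟨H, h1, h2⟩ := ht; ⟨H, h1, Has.mono h2 e⟩)
      obtain ⟨b, rfl⟩ : ∃ b, Γ = Gm (y, b) := by
        simp only [mem_cons, not_mem_nil, or_false] at g1
        exact g1.elim (⟨false, ·⟩) (⟨true, ·⟩)
      have x : (xs D (y, b)).length ≤ 2 * y.2 := by
        refine (subperm_of_subset (nodup_range.filter _) (l₂ := (tch L).toList.map Fin.val)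
          fun a e => ?_).length_le.trans (by have := card_tch (L := L); simp; omega)
        simp only [mem_filter, mem_range, decide_eq_true_eq] at e
        lift a to Fin y.1.length using e.1
        refine mem_map_of_mem (Finset.mem_toList.2 (mem_tch.2 fun c => ?_))
        have := g2 a c
        rw [← Finset.card_map Fin.valEmbedding, hD] at this
        rw [countP_eq_length_filter, ← toFinset_card_of_nodup (nodup_range.filter _)] at e
        refine absurd (this.trans' (Finset.card_le_card fun i => ?_)) (not_le.2 (e.2.trans_le' (by omega)))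
        simp +contextual [gm_adj (z := (y, b)) h, Fin.exists_iff]
      refine (exch (S := {a | rs D q (y, b) a.1}) hq0 hq g1 le_rfl
        (near (z := (y, b)) h hn) s').imp fun L l =>
        ⟨l.1, l.2.1, l.2.2.1, fun a e => mem_filter.2 ⟨by simp, decide_eq_true (Or.inr
          ⟨b, by cases b <;> simp, x, l.2.2.2 a e⟩)⟩⟩
    refine ⟨L.map (Prod.map Fin.val Fin.val), (mem_words ?_).2 _ (by simpa) ?_, ?_,
      by rwa [bad_iff hl hq h]⟩
    · rw [mul_comm, pow_mul]
      exact Nat.pow_le_pow_left ((Nat.succ_le_succ (fm le_rfl (by simp))).trans Nat.lt_two_pow_self) _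
    · simp only [mem_map, forall_exists_index, and_imp, forall_apply_eq_imp_iff₂]
      exact fun p e => mem_flatMap.2 ⟨_, l4 _ fun c => (c p e).1 rfl,
        mem_map.2 ⟨_, l4 _ fun c => (c p e).2 rfl, rfl⟩⟩
    · simpa [adj_iff h] using l2
  · rintro ⟨L, l1, l2, l3⟩
    push Not at l2
    obtain ⟨L, rfl⟩ : ∃ L' : List (Fin y.1.length × Fin y.1.length),
        L'.map (Prod.map Fin.val Fin.val) = L := ⟨L.pmap (fun p e => (⟨p.1, e.1⟩, ⟨p.2, e.2.1⟩)) l2, by
      simp [map_pmap]⟩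
    exact ⟨L, by simpa using (words_len _ _ _ _ l1).1, fun p e => (adj_iff h _ _).2
      (l2 _ (mem_map_of_mem e)).2.2, by rwa [bad_iff hl hq h] at l3⟩

end Pool.Agent.KS6_65.CF
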