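import Pool.Graph.R_pool_sql_team_22a80281.Lib.helper10_.Con2
import Pool.Agent.KS6_65.CF.Base

/-! Each star with at least four leaves, and each clique with at least three vertices plus an
isolated vertex, gives a W[2]-hard contraction problem. -/

namespace Pool.Agent.KS6_65.CF

open Pool.Agent.Cx Pool.Agent.Cx.Con Pool.Agent.Cis SimpleGraph Relation Finset

/-- the edge list given by a decidable relation -/
def el (m : ℕ) (E : ℕ → ℕ → Prop) [DecidableRel E] : List (ℕ × ℕ) :=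
  (List.range m ×ˢ List.range m).filter fun p => decide (E p.1 p.2)

lemma mem_el {m : ℕ} {E : ℕ → ℕ → Prop} [DecidableRel E] {p q : ℕ} :
    (p, q) ∈ el m E ↔ (p < m ∧ q < m) ∧ E p q := by
  simp only [el, List.mem_filter, List.mem_product, List.mem_range, decide_eq_true_eq]

def ES (s p q : ℕ) : Prop :=
  (p = 0 ∧ (q = 1 ∨ q = 3 ∨ q = 4 ∨ (6 ≤ q ∧ q < s + 3))) ∨ (p = 1 ∧ (q = 1 ∨ q = 3)) ∨
  (p = 2 ∧ (q = 2 ∨ q = 4 ∨ q = 5)) ∨ (p = 3 ∧ q = 3) ∨ (p = 4 ∧ (q = 4 ∨ s + 3 ≤ q)) ∨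
  (p = 5 ∧ q = 5) ∨ (p = q ∧ 6 ≤ q)
instance (s : ℕ) : DecidableRel (ES s) := fun _ _ => by unfold ES; infer_instance

def EC (p q : ℕ) : Prop := (p = 0 ∧ (q = 1 ∨ 3 ≤ q)) ∨ (3 ≤ p ∧ p < q)
instance : DecidableRel EC := fun _ _ => by unfold EC; infer_instance

/-- symmetric description of the relation -/
lemma t0s {s p q : ℕ} : T0 (el (2 * s + 1) (ES s)) p q ↔ (p < 2 * s + 1 ∧ q < 2 * s + 1) ∧
    (ES s p q ∨ ES s q p) := by
  unfold T0
  rw [mem_el, mem_el]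
  tauto

lemma t0c {t p q : ℕ} : T0 (el (t + 2) EC) p q ↔ (p < t + 2 ∧ q < t + 2) ∧
    (EC p q ∨ EC q p) := by
  unfold T0
  rw [mem_el, mem_el]
  tauto

lemma es0 {s q : ℕ} (h : q = 1 ∨ q = 3 ∨ q = 4 ∨ (6 ≤ q ∧ q < s + 3)) : ES s 0 q := Or.inl ⟨rfl, h⟩
lemma es4 {s q : ℕ} (h : s + 3 ≤ q) : ES s 4 q :=
  Or.inr (Or.inr (Or.inr (Or.inr (Or.inl ⟨rfl, Or.inr h⟩))))
lemma es24 {s : ℕ} : ES s 2 4 := Or.inr (Or.inr (Or.inl ⟨rfl, Or.inr (Or.inl rfl)⟩))
lemma es25 {s : ℕ} : ES s 2 5 := Or.inr (Or.inr (Or.inl ⟨rfl, Or.inr (Or.inr rfl)⟩))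
lemma esx {s q : ℕ} (h : q ≠ 0) : ES s q q := by
  rcases (by omega : q = 1 ∨ q = 2 ∨ q = 3 ∨ q = 4 ∨ q = 5 ∨ 6 ≤ q) with
    rfl | rfl | rfl | rfl | rfl | h
  · exact Or.inr (Or.inl ⟨rfl, Or.inl rfl⟩)
  · exact Or.inr (Or.inr (Or.inl ⟨rfl, Or.inl rfl⟩))
  · exact Or.inr (Or.inr (Or.inr (Or.inl ⟨rfl, rfl⟩)))
  · exact Or.inr (Or.inr (Or.inr (Or.inr (Or.inl ⟨rfl, Or.inl rfl⟩))))
  · exact Or.inr (Or.inr (Or.inr (Or.inr (Or.inr (Or.inl ⟨rfl, rfl⟩)))))
  · exact Or.inr (Or.inr (Or.inr (Or.inr (Or.inr (Or.inr ⟨rfl, h⟩)))))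
lemma es13 {s : ℕ} : ES s 1 3 := Or.inr (Or.inl ⟨rfl, Or.inr rfl⟩)
lemma es12 {s : ℕ} : ¬ (ES s 1 2 ∨ ES s 2 1) := by simp [ES]

/-- what can be adjacent to what -/
def Pos (s p q : ℕ) : Prop :=
  (p = 0 → q = 1 ∨ q = 3 ∨ q = 4 ∨ (6 ≤ q ∧ q < s + 3)) ∧
  (p = 1 → q = 0 ∨ q = 1 ∨ q = 2 ∨ q = 3) ∧
  (p = 2 → q = 1 ∨ q = 2 ∨ q = 4 ∨ q = 5) ∧
  (p = 3 → q = 0 ∨ q = 1 ∨ q = 3) ∧
  (p = 4 → q = 0 ∨ q = 2 ∨ q = 4 ∨ s + 3 ≤ q) ∧
  (p = 5 → q = 2 ∨ q = 5) ∧
  (6 ≤ p → p < s + 3 → q = 0 ∨ q = p) ∧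
  (s + 3 ≤ p → q = 4 ∨ q = p)

lemma pos_es {s p q : ℕ} (hs : 4 ≤ s) (h : ES s p q) : Pos s p q ∧ Pos s q p := by
  unfold ES at h
  rcases h with ⟨rfl, h⟩ | ⟨rfl, h⟩ | ⟨rfl, h⟩ | ⟨rfl, h⟩ | ⟨rfl, h⟩ | ⟨rfl, h⟩ | ⟨rfl, h⟩
  · rcases h with rfl | rfl | rfl | h
    all_goals (unfold Pos; refine ⟨⟨?_, ?_, ?_, ?_, ?_, ?_, ?_, ?_⟩, ⟨?_, ?_, ?_, ?_, ?_, ?_, ?_, ?_⟩⟩ <;> omega)
  · rcases h with rfl | rfl
    all_goals (unfold Pos; refine ⟨⟨?_, ?_, ?_, ?_, ?_, ?_, ?_, ?_⟩, ⟨?_, ?_, ?_, ?_, ?_, ?_, ?_, ?_⟩⟩ <;> omega)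
  · rcases h with rfl | rfl | rfl
    all_goals (unfold Pos; refine ⟨⟨?_, ?_, ?_, ?_, ?_, ?_, ?_, ?_⟩, ⟨?_, ?_, ?_, ?_, ?_, ?_, ?_, ?_⟩⟩ <;> omega)
  · subst h
    unfold Pos; refine ⟨⟨?_, ?_, ?_, ?_, ?_, ?_, ?_, ?_⟩, ⟨?_, ?_, ?_, ?_, ?_, ?_, ?_, ?_⟩⟩ <;> omega
  · rcases h with rfl | h
    all_goals (unfold Pos; refine ⟨⟨?_, ?_, ?_, ?_, ?_, ?_, ?_, ?_⟩, ⟨?_, ?_, ?_, ?_, ?_, ?_, ?_, ?_⟩⟩ <;> omega)
  · subst h
    unfold Pos; refine ⟨⟨?_, ?_, ?_, ?_, ?_, ?_, ?_, ?_⟩, ⟨?_, ?_, ?_, ?_, ?_, ?_, ?_, ?_⟩⟩ <;> omega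
  · unfold Pos; refine ⟨⟨?_, ?_, ?_, ?_, ?_, ?_, ?_, ?_⟩, ⟨?_, ?_, ?_, ?_, ?_, ?_, ?_, ?_⟩⟩ <;> omega

lemma t1s {s p q : ℕ} (hs : 4 ≤ s) (h : T1 (el (2 * s + 1) (ES s)) p q) : Pos s p q := by
  unfold T1 at h
  rw [t0s] at h
  rcases h with ⟨-, h | h⟩ | ⟨rfl, rfl⟩ | ⟨rfl, rfl⟩
  · exact (pos_es hs h).1
  · exact (pos_es hs h).2
  · unfold Pos; refine ⟨?_, ?_, ?_, ?_, ?_, ?_, ?_, ?_⟩ <;> omega
  · unfold Pos; refine ⟨?_, ?_, ?_, ?_, ?_, ?_, ?_, ?_⟩ <;> omega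

lemma nbs {s p q : ℕ} (hs : 4 ≤ s) (h : T1 (el (2 * s + 1) (ES s)) p q ∨ T2 (el (2 * s + 1) (ES s)) p q) :
    Pos s p q ∨ (p = 0 ∧ q = 2) ∨ (p = 2 ∧ q = 0) := by
  rcases h with h | h
  · exact Or.inl (t1s hs h)
  · unfold T2 at h
    rcases h with h | h | h
    · exact Or.inl (t1s hs (Or.inl h))
    · exact Or.inr (Or.inr h)
    · exact Or.inr (Or.inl ⟨h.2, h.1⟩)

/-- the colouring of the classes -/
def gs (s q : ℕ) : ℕ := if q = 0 ∨ q = 2 ∨ q = 4 then 0 else if q = 5 then 1 else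
  if q = 1 ∨ q = 3 then 2 else if q = 6 then 1 else if q < s + 3 then q - 4 else q - (s + 2)

lemma gs_lt {s q : ℕ} (hs : 4 ≤ s) (h : q < 2 * s + 1) : gs s q < s - 1 := by
  unfold gs
  split_ifs <;> omega

/-- the pairs of neighbours of a class with the same colour -/
def Sm (x y : ℕ) : Prop := (x = y) ∨ ((x = 1 ∨ x = 3) ∧ (y = 1 ∨ y = 3)) ∨
      ((x = 0 ∨ x = 2 ∨ x = 4) ∧ (y = 0 ∨ y = 2 ∨ y = 4))

lemma sm_of {s x y : ℕ} (Q : ℕ → Prop) (hx : Q x) (hy : Q y)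
    (h : gs s x = gs s y) (hQ : ∀ x y, Q x → Q y → gs s x = gs s y → Sm x y) : Sm x y :=
  hQ x y hx hy h

lemma sm0 {s x y : ℕ} (hs : 4 ≤ s) (hx : x = 1 ∨ x = 2 ∨ x = 3 ∨ x = 4 ∨ (6 ≤ x ∧ x < s + 3))
    (hy : y = 1 ∨ y = 2 ∨ y = 3 ∨ y = 4 ∨ (6 ≤ y ∧ y < s + 3)) (h : gs s x = gs s y) : Sm x y := by
  unfold gs at h
  unfold Sm
  split_ifs at h <;> omega

lemma sm1 {s x y : ℕ} (hs : 4 ≤ s) (hx : x = 0 ∨ x = 1 ∨ x = 2 ∨ x = 3 ∨ x = 4 ∨ x = 5)
    (hy : y = 0 ∨ y = 1 ∨ y = 2 ∨ y = 3 ∨ y = 4 ∨ y = 5) (h : gs s x = gs s y) : Sm x y := by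
  unfold gs at h
  unfold Sm
  split_ifs at h <;> omega

lemma sm4 {s x y : ℕ} (hs : 4 ≤ s) (hx : x = 0 ∨ x = 2 ∨ x = 4 ∨ s + 3 ≤ x)
    (hy : y = 0 ∨ y = 2 ∨ y = 4 ∨ s + 3 ≤ y) (h : gs s x = gs s y) : Sm x y := by
  unfold gs at h
  unfold Sm
  split_ifs at h <;> omega

lemma gs_eq {s c x y : ℕ} (hs : 4 ≤ s) (hx' : x < 2 * s + 1) (hy' : y < 2 * s + 1)
    (hx : T1 (el (2 * s + 1) (ES s)) c x ∨ T2 (el (2 * s + 1) (ES s)) c x)
    (hy : T1 (el (2 * s + 1) (ES s)) c y ∨ T2 (el (2 * s + 1) (ES s)) c y) (h : gs s x = gs s y) :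
    T2 (el (2 * s + 1) (ES s)) x y ∨ (x = 0 ∧ y = 0) := by
  have key : Sm x y := by
    have hx := nbs hs hx
    have hy := nbs hs hy
    rcases (by omega : c = 0 ∨ c = 1 ∨ c = 2 ∨ c = 3 ∨ c = 4 ∨ c = 5 ∨ (6 ≤ c ∧ c < s + 3) ∨
      s + 3 ≤ c) with c1 | c1 | c1 | c1 | c1 | c1 | c1 | c1
    · refine sm0 hs ?_ ?_ h
      · rcases hx with hx | hx | hx
        · have := hx.1 c1; omega
        · omega
        · omega
      · rcases hy with hx | hx | hx
        · have := hx.1 c1; omega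
        · omega
        · omega
    · refine sm1 hs ?_ ?_ h
      · rcases hx with hx | hx | hx
        · have := hx.2.1 c1; omega
        · omega
        · omega
      · rcases hy with hx | hx | hx
        · have := hx.2.1 c1; omega
        · omega
        · omega
    · refine sm1 hs ?_ ?_ h
      · rcases hx with hx | hx | hx
        · have := hx.2.2.1 c1; omega
        · omega
        · omega
      · rcases hy with hx | hx | hx
        · have := hx.2.2.1 c1; omega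
        · omega
        · omega
    · refine sm1 hs ?_ ?_ h
      · rcases hx with hx | hx | hx
        · have := hx.2.2.2.1 c1; omega
        · omega
        · omega
      · rcases hy with hx | hx | hx
        · have := hx.2.2.2.1 c1; omega
        · omega
        · omega
    · refine sm4 hs ?_ ?_ h
      · rcases hx with hx | hx | hx
        · have := hx.2.2.2.2.1 c1; omega
        · omega
        · omega
      · rcases hy with hx | hx | hx
        · have := hx.2.2.2.2.1 c1; omega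
        · omega
        · omega
    · refine sm1 hs ?_ ?_ h
      · rcases hx with hx | hx | hx
        · have := hx.2.2.2.2.2.1 c1; omega
        · omega
        · omega
      · rcases hy with hx | hx | hx
        · have := hx.2.2.2.2.2.1 c1; omega
        · omega
        · omega
    · rcases hx with hx | hx | hx
      · have hx := hx.2.2.2.2.2.2.1 c1.1 c1.2
        rcases hy with hy | hy | hy
        · have hy := hy.2.2.2.2.2.2.1 c1.1 c1.2
          unfold gs at h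
          unfold Sm
          split_ifs at h <;> omega
        · omega
        · omega
      · omega
      · omega
    · refine sm4 hs ?_ ?_ h
      · rcases hx with hx | hx | hx
        · have := hx.2.2.2.2.2.2.2 c1; omega
        · omega
        · omega
      · rcases hy with hx | hx | hx
        · have := hx.2.2.2.2.2.2.2 c1; omega
        · omega
        · omega
  have lp : ∀ {x : ℕ}, x < 2 * s + 1 → T2 (el (2 * s + 1) (ES s)) x x ∨ (x = 0 ∧ x = 0) :=
    fun {x} hx => by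
      by_cases e : x = 0
      · exact Or.inr ⟨e, e⟩
      · exact Or.inl (Or.inl (t0s.2 ⟨⟨hx, hx⟩, Or.inl (esx e)⟩))
  rcases key with rfl | ⟨rfl | rfl, rfl | rfl⟩ | ⟨rfl | rfl | rfl, rfl | rfl | rfl⟩
  · exact lp hx'
  · exact lp hx'
  · exact Or.inl (Or.inl (t0s.2 ⟨⟨hx', hy'⟩, Or.inl es13⟩))
  · exact Or.inl (Or.inl (t0s.2 ⟨⟨hx', hy'⟩, Or.inr es13⟩))
  · exact lp hx'
  · exact lp hx'
  · exact Or.inl (Or.inr (Or.inr ⟨rfl, rfl⟩))
  · exact Or.inl (Or.inl (t0s.2 ⟨⟨hx', hy'⟩, Or.inl (es0 (by omega))⟩))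
  · exact Or.inl (Or.inr (Or.inl ⟨rfl, rfl⟩))
  · exact lp hx'
  · exact Or.inl (Or.inl (t0s.2 ⟨⟨hx', hy'⟩, Or.inl es24⟩))
  · exact Or.inl (Or.inl (t0s.2 ⟨⟨hx', hy'⟩, Or.inr (es0 (by omega))⟩))
  · exact Or.inl (Or.inl (t0s.2 ⟨⟨hx', hy'⟩, Or.inr es24⟩))
  · exact lp hx'

theorem fw_star {s : ℕ} (hs : 4 ≤ s) (V : Type) (G : SimpleGraph V) (L : List (V × V)) (π : V → ℕ)
    (p : ∀ a, π a < 2 * s + 1)
    (a : ∀ a b, A G L a b → T1 (el (2 * s + 1) (ES s)) (π a) (π b) ∨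
      T2 (el (2 * s + 1) (ES s)) (π a) (π b))
    (n : ∀ a b, N G L a b → ¬ T2 (el (2 * s + 1) (ES s)) (π a) (π b) ∧ (π a ≠ 0 ∨ π b ≠ 0)) :
    ¬ Has (starK s) G L := by
  intro h
  obtain ⟨v, f, h1, h2⟩ := has_star.1 h
  obtain ⟨i, -, j, -, e, g⟩ := exists_ne_map_eq_of_card_lt_of_maps_to
    (s := (univ : Finset (Fin s))) (t := range (s - 1)) (f := fun i => gs s (π (f i)))
    (by rw [card_range, card_univ, Fintype.card_fin]; omega) fun i _ =>
      mem_coe.2 (mem_range.2 (gs_lt hs (p _)))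
  have := n _ _ (h2 i j e)
  rcases gs_eq hs (p _) (p _) (a _ _ (h1 i)) (a _ _ (h1 j)) g with g | g
  · exact this.1 g
  · exact this.2.elim (· g.1) (· g.2)

theorem bw_star {s : ℕ} (hs : 4 ≤ s) (V : Type) (G : SimpleGraph V) (L : List (V × V)) (π : V → ℕ)
    (u : V) (p0 : π u = 0) (l : ∀ p ∈ L, G.Adj p.1 p.2)
    (a : ∀ a b, G.Adj a b → T1 (el (2 * s + 1) (ES s)) (π a) (π b))
    (b : ∀ a b, π a ≠ π b → T0 (el (2 * s + 1) (ES s)) (π a) (π b) → G.Adj a b)
    (c : ∀ i, 2 < i → i < 2 * s + 1 → ∃ a, U L a ∧ π a = i)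
    (h : ¬ Has (starK s) G L) (d : V) (d1 : U L d) (d2 : π d = 2) :
    ∃ a, R L u a ∧ π a = 1 ∧ G.Adj a d := by
  have : Nonempty V := ⟨u⟩
  choose! x hx using c
  have xU : ∀ i, 2 < i → i < 2 * s + 1 → U L (x i) := fun i h1 h2 => (hx i h1 h2).1
  have xp : ∀ i, 2 < i → i < 2 * s + 1 → π (x i) = i := fun i h1 h2 => (hx i h1 h2).2
  have ne : ∀ {a b}, π a ≠ π b → a ≠ b := fun e c => e (c ▸ rfl)
  have aa : ∀ {y z w i j}, U L w → R L y z → π z = i → π w = j → π y ≠ j →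
      i ≠ j → (ES s i j ∨ ES s j i) → i < 2 * s + 1 → j < 2 * s + 1 → A G L y w := by
    rintro y z w i j s' r hi hj e1 e2 e3 e4 e5
    exact s'.a (ne (hj ▸ e1)) r (b _ _ (by rw [hi, hj]; exact e2)
      (by rw [hi, hj, t0s]; exact ⟨⟨e4, e5⟩, e3⟩))
  have nn : ∀ {y w i j}, U L y → U L w → π y = i → π w = j → i ≠ j →
      ¬ T1 (el (2 * s + 1) (ES s)) i j → N G L y w := by
    rintro y w i j s' r hi hj e1 e2
    exact s'.n r (ne (by rw [hi, hj]; exact e1)) fun c => e2 (hi ▸ hj ▸ a _ _ c)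
  have r0 := R.refl (L := L) u
  have ua : ∀ j, 2 < j → j < 2 * s + 1 → (j = 3 ∨ j = 4 ∨ (6 ≤ j ∧ j < s + 3)) →
      A G L u (x j) := fun j j1 j2 j3 => aa (xU j j1 j2) r0 p0 (xp j j1 j2) (by omega) (by omega)
        (Or.inl (es0 (by omega))) (by omega) j2
  have xn : ∀ i j, 2 < i → i < 2 * s + 1 → 2 < j → j < 2 * s + 1 → i ≠ j →
      (i = 4 → j < s + 3) → (j = 4 → i < s + 3) → N G L (x i) (x j) := by
    intro i j i1 i2 j1 j2 e e1 e2
    refine nn (xU i i1 i2) (xU j j1 j2) (xp i i1 i2) (xp j j1 j2) e fun t => ?_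
    have := t1s hs t
    rcases (by omega : i = 3 ∨ i = 4 ∨ i = 5 ∨ (6 ≤ i ∧ i < s + 3) ∨ s + 3 ≤ i) with
      c1 | c1 | c1 | c1 | c1
    · have := this.2.2.2.1 c1; omega
    · have := this.2.2.2.2.1 c1; omega
    · have := this.2.2.2.2.2.1 c1; omega
    · have := this.2.2.2.2.2.2.1 c1.1 c1.2; omega
    · have := this.2.2.2.2.2.2.2 c1; omega
  have k1 : ∀ y, R L u y → π y ≠ 4 := fun y r e => by
    refine h (has_star.2 ⟨u, fun i => x (if i.1 = 0 then 3 else if i.1 = 1 then 6 else s + 1 + i.1),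
      fun i => ?_, fun i j e => ?_⟩)
    · have := i.2
      show A G L u (x _)
      split_ifs
      · exact ua 3 (by omega) (by omega) (by omega)
      · exact ua 6 (by omega) (by omega) (by omega)
      · exact aa (xU _ (by omega) (by omega)) r e (xp _ (by omega) (by omega)) (by omega)
          (by omega) (Or.inl (es4 (by omega))) (by omega) (by omega)
    · have := i.2
      have := j.2
      have : i.1 ≠ j.1 := fun c => e (Fin.ext c)
      show N G L (x _) (x _)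
      split_ifs
      · omega
      · exact xn _ _ (by omega) (by omega) (by omega) (by omega) (by omega) (by omega) (by omega)
      · exact xn _ _ (by omega) (by omega) (by omega) (by omega) (by omega) (by omega) (by omega)
      · exact xn _ _ (by omega) (by omega) (by omega) (by omega) (by omega) (by omega) (by omega)
      · omega
      · exact xn _ _ (by omega) (by omega) (by omega) (by omega) (by omega) (by omega) (by omega)
      · exact xn _ _ (by omega) (by omega) (by omega) (by omega) (by omega) (by omega) (by omega)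
      · exact xn _ _ (by omega) (by omega) (by omega) (by omega) (by omega) (by omega) (by omega)
      · exact xn _ _ (by omega) (by omega) (by omega) (by omega) (by omega) (by omega) (by omega)
  have k3 : ∀ y, R L u y → π y ≠ 2 := fun y r e => by
    refine h (has_star.2 ⟨u, fun i => x (3 + i.1), fun i => ?_, fun i j e => ?_⟩)
    · have := i.2
      show A G L u (x (3 + i.1))
      by_cases h5 : i.1 = 2
      · rw [h5]
        exact aa (xU _ (by omega) (by omega)) r e (xp _ (by omega) (by omega)) (by omega)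
          (by omega) (Or.inl es25) (by omega) (by omega)
      · exact ua _ (by omega) (by omega) (by omega)
    · have := i.2
      have := j.2
      have : i.1 ≠ j.1 := fun c => e (Fin.ext c)
      exact xn _ _ (by omega) (by omega) (by omega) (by omega) (by omega) (by omega) (by omega)
  have k2 : ∀ y, R L u y → π y = 0 ∨ π y = 1 ∨ π y = 3 ∨ (6 ≤ π y ∧ π y < s + 3) := fun y r => by
    induction r with
    | refl => exact Or.inl p0
    | @tail y' y'' r e ih =>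
      have c1 := k1 _ (r.tail e)
      have c2 := k3 _ (r.tail e)
      have adj : G.Adj y' y'' := e.elim (fun e => l (y', y'') e) fun e => (l (y'', y') e).symm
      have := t1s hs (a _ _ adj)
      rcases ih with ih | ih | ih | ih
      · have := this.1 ih; omega
      · have := this.2.1 ih; omega
      · have := this.2.2.2.1 ih; omega
      · have := this.2.2.2.2.2.2.1 ih.1 ih.2; omega
  have un : ∀ {w}, U L w → (π w = 2 ∨ s + 3 ≤ π w) → (∀ y, R L u y → G.Adj y w → π y ≠ 1) →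
      N G L u w := fun {w} s' z q => ⟨fun r => ne (by omega) (s'.eq r.symm), fun r => by
    obtain ⟨y, r, j⟩ := s'.ca.1 r
    have h1 := k2 _ r
    have h2 := q _ r j
    have this := t1s hs (a _ _ j)
    rcases h1 with ih | ih | ih | ih
    · have := this.1 ih; omega
    · exact h2 ih
    · have := this.2.2.2.1 ih; omega
    · have := this.2.2.2.2.2.2.1 ih.1 ih.2; omega⟩
  have q : ∀ {w}, s + 3 ≤ π w → ∀ y, R L u y → G.Adj y w → π y ≠ 1 := fun e y _ j f => by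
    have := (t1s hs (a _ _ j)).2.1 f
    omega
  by_contra e
  have Nd : N G L u d := un d1 (Or.inl d2) fun y r j c => e ⟨y, r, c, j⟩
  have NF : ∀ j, s + 3 ≤ j → j < 2 * s + 1 → N G L u (x j) := fun j j1 j2 =>
    un (xU j (by omega) j2) (by rw [xp j (by omega) j2]; omega)
      (q (by rw [xp j (by omega) j2]; exact j1))
  have DF : ∀ j, s + 3 ≤ j → j < 2 * s + 1 → N G L d (x j) := fun j j1 j2 =>
    nn d1 (xU j (by omega) j2) d2 (xp j (by omega) j2) (by omega) fun t => by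
      have := (t1s hs t).2.2.1 rfl
      omega
  refine h (has_star.2 ⟨x 4, fun i => if i.1 = 0 then u else if i.1 = 1 then d else x (s + 1 + i.1),
    fun i => ?_, fun i j e => ?_⟩)
  · have := i.2
    show A G L (x 4) (if i.1 = 0 then u else if i.1 = 1 then d else x (s + 1 + i.1))
    split_ifs
    · exact (ua 4 (by omega) (by omega) (by omega)).symm
    · exact aa d1 (.refl _) (xp 4 (by omega) (by omega)) d2 (by
        rw [xp 4 (by omega) (by omega)]; omega) (by omega) (Or.inr es24)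
        (by omega) (by omega)
    · exact aa (xU _ (by omega) (by omega)) (.refl _) (xp 4 (by omega) (by omega))
        (xp _ (by omega) (by omega)) (by rw [xp 4 (by omega) (by omega)]; omega) (by omega)
        (Or.inl (es4 (by omega))) (by omega) (by omega)
  · have hi := i.2
    have hj := j.2
    have ij : i.1 ≠ j.1 := fun c => e (Fin.ext c)
    show N G L (if i.1 = 0 then u else if i.1 = 1 then d else x (s + 1 + i.1))
      (if j.1 = 0 then u else if j.1 = 1 then d else x (s + 1 + j.1))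
    split_ifs
    · omega
    · exact Nd
    · exact NF _ (by omega) (by omega)
    · exact Nd.symm
    · omega
    · exact DF _ (by omega) (by omega)
    · exact (NF _ (by omega) (by omega)).symm
    · exact (DF _ (by omega) (by omega)).symm
    · exact xn _ _ (by omega) (by omega) (by omega) (by omega) (by omega) (by omega) (by omega)

theorem hard_star {s : ℕ} (hs : 4 ≤ s) : W2Hard (FreeCon {starK s}) Prod.snd := by
  refine w2 (t := el (2 * s + 1) (ES s)) (m := 2 * s + 1) ?_ (by omega) ?_ ?_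
    (fw_star hs) (bw_star hs)
  · exact mem_el.2 ⟨by omega, es0 (by omega)⟩
  · rw [t0s]
    exact fun h => es12 h.2
  · intro q q1 q2 h
    have h3 := (t1s hs (Or.inl h)).2.1 rfl
    refine t0s.2 ⟨by omega, Or.inl (es0 ?_)⟩
    by_contra c
    have : q = 2 := by omega
    subst this
    exact es12 (t0s.1 h).2

/-- the colouring of the classes for cliques -/
def gc (q : ℕ) : ℕ := if q ≤ 2 then q - 1 else q - 3

lemma ec0 {q : ℕ} (h : q = 1 ∨ 3 ≤ q) : EC 0 q := Or.inl ⟨rfl, h⟩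
lemma ec3 {p q : ℕ} (h : 3 ≤ p) (h' : p < q) : EC p q := Or.inr ⟨h, h'⟩

lemma not_t02 {t p : ℕ} : ¬ T0 (el (t + 2) EC) p 2 := by
  rw [t0c]
  unfold EC
  rintro ⟨-, (⟨-, h | h⟩ | ⟨h, h'⟩) | (⟨h, -⟩ | ⟨h, -⟩)⟩ <;> omega

lemma t1_2 {t p : ℕ} (h : T1 (el (t + 2) EC) p 2) : p = 1 := by
  rcases h with h | h | h
  · exact absurd h not_t02
  · omega
  · exact h.2

lemma adc {t p q : ℕ} (h : T1 (el (t + 2) EC) p q ∨ T2 (el (t + 2) EC) p q) (hp : p ≠ 0)
    (hq : q ≠ 0) : (3 ≤ p ∧ p < q) ∨ (3 ≤ q ∧ q < p) ∨ (p = 2 ∧ q = 1) ∨ (p = 1 ∧ q = 2) := by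
  have key : ∀ {p q}, p ≠ 0 → q ≠ 0 → T0 (el (t + 2) EC) p q →
      (3 ≤ p ∧ p < q) ∨ (3 ≤ q ∧ q < p) := fun {p q} hp hq h => by
    rcases (t0c.1 h).2 with (h | h) | (h | h)
    · exact absurd h.1 hp
    · exact Or.inl h
    · exact absurd h.1 hq
    · exact Or.inr h
  rcases h with (h | h | h) | (h | h | h)
  · have := key hp hq h; omega
  · omega
  · omega
  · have := key hp hq h; omega
  · omega
  · omega

theorem hard_clique {t : ℕ} (ht : 3 ≤ t) : W2Hard (FreeCon {cliqueK1 t}) Prod.snd := by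
  refine w2 (t := el (t + 2) EC) (m := t + 2) ?_ (by omega) ?_ ?_
    (fun V G L π p a n h => ?_) fun V G L π u p0 l a b c h d d1 d2 => ?_
  · exact mem_el.2 ⟨by omega, ec0 (Or.inl rfl)⟩
  · exact not_t02
  · intro q q1 q2 h
    refine t0c.2 ⟨by omega, Or.inl (ec0 ?_)⟩
    by_contra c
    have : q = 2 := by omega
    subst this
    exact not_t02 h
  · obtain ⟨v, f, h1, h2⟩ := has_ck.1 h
    have nz : ∀ i, π (f i) ≠ 0 := fun i e => by
      have h3 := n _ _ (h1 i)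
      have h4 := p v
      rw [e] at h3
      have h5 : π v ≠ 0 := h3.2.elim id fun x => absurd rfl x
      by_cases h6 : π v = 2
      · exact h3.1 (Or.inr (Or.inl ⟨h6, rfl⟩))
      · exact h3.1 (Or.inl (t0c.2 ⟨by omega, Or.inr (ec0 (by omega))⟩))
    obtain ⟨i, -, j, -, e, g⟩ := exists_ne_map_eq_of_card_lt_of_maps_to
      (s := (univ : Finset (Fin t))) (t := range (t - 1)) (f := fun i => gc (π (f i)))
      (by simp; omega) fun i _ => by
        simp only [coe_range, Set.mem_Iio]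
        have := p (f i)
        have := nz i
        unfold gc
        split_ifs <;> omega
    have h3 := a _ _ (h2 i j e)
    have h4 := nz i
    have h5 := nz j
    have h6 := adc h3 h4 h5
    unfold gc at g
    split_ifs at g <;> omega
  · have : Nonempty V := ⟨u⟩
    choose! x hx using c
    have ne : ∀ {a b}, π a ≠ π b → a ≠ b := fun e c => e (c ▸ rfl)
    have xU : ∀ i, 2 < i → i < t + 2 → U L (x i) := fun i h1 h2 => (hx i h1 h2).1
    have xp : ∀ i, 2 < i → i < t + 2 → π (x i) = i := fun i h1 h2 => (hx i h1 h2).2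
    by_contra e
    have Nd : N G L d u := N.symm ⟨fun r => ne (by omega) (d1.eq r.symm), fun r => by
      obtain ⟨z, z1, z2⟩ := d1.ca.1 r
      refine e ⟨z, z1, ?_, z2⟩
      exact t1_2 (t := t) (d2 ▸ a _ _ z2)⟩
    have ux : ∀ j, 2 < j → j < t + 2 → A G L u (x j) := fun j j1 j2 =>
      (xU j j1 j2).a (ne (by rw [xp j j1 j2]; omega)) (.refl _) (b _ _ (by rw [xp j j1 j2]; omega)
        (by rw [xp j j1 j2, p0]; exact t0c.2 ⟨by omega, Or.inl (ec0 (by omega))⟩))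
    have xx : ∀ i j, 2 < i → i < t + 2 → 2 < j → j < t + 2 → i ≠ j → A G L (x i) (x j) :=
      fun i j i1 i2 j1 j2 e => (xU j j1 j2).a (ne (by rw [xp j j1 j2, xp i i1 i2]; omega)) (.refl _)
        (b _ _ (by rw [xp j j1 j2, xp i i1 i2]; omega)
        (by
          rw [xp j j1 j2, xp i i1 i2]
          refine t0c.2 ⟨by omega, ?_⟩
          rcases Nat.lt_or_gt_of_ne e with e | e
          · exact Or.inl (ec3 (by omega) e)
          · exact Or.inr (ec3 (by omega) e)))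
    have Nx : ∀ j, 2 < j → j < t + 2 → N G L d (x j) := fun j j1 j2 =>
      d1.n (xU j j1 j2) (ne (by rw [xp j j1 j2]; omega)) fun r => by
        have h9 := t1_2 (t := t) (d2 ▸ a _ _ r.symm)
        rw [xp j j1 j2] at h9
        omega
    refine h (has_ck.2 ⟨d, fun i => if i.1 = 0 then u else x (2 + i.1), fun i => ?_, fun i j e => ?_⟩)
    · have := i.2
      show N G L d (if i.1 = 0 then u else x (2 + i.1))
      split_ifs
      · exact Nd
      · exact Nx _ (by omega) (by omega)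
    · have hi := i.2
      have hj := j.2
      have ij : i.1 ≠ j.1 := fun c => e (Fin.ext c)
      show A G L (if i.1 = 0 then u else x (2 + i.1)) (if j.1 = 0 then u else x (2 + j.1))
      split_ifs
      · omega
      · exact ux _ (by omega) (by omega)
      · exact (ux _ (by omega) (by omega)).symm
      · exact xx _ _ (by omega) (by omega) (by omega) (by omega) (by omega)

end Pool.Agent.KS6_65.CF
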